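import Pool.Agent.Helper33.MO.GapH

/-!
# Density of the orbits which stay above `z`, and the finiteness of `E`

`E(d, m, R)` is finite if and only if the lower density of the `n` with all their iterates `> z` is `o(1 / z)`.
-/

set_option autoImplicit false

namespace Pool.Agent.Helper33.MO

open Filter Topology Finset Pool.Agent.Helper68.Moeller Pool.Agent.Helper52.Moeller
  Pool.Agent.Helper52.Tao Pool.Agent.Helper8.ND Pool.Agent.Helper91 Pool.Agent.Helper8
  Pool.Agent.Helper28 Pool.Agent.Helper28.POSB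

variable {d m : ℕ} {r : ℤ → ℤ}

/-- If `E` is finite then no orbit stays above a large constant. -/
theorem highS_empty (hd : 2 ≤ d) (hr : Admissible d m r) (hE : (E d m r).Finite) :
    ∃ z₀ : ℝ, 1 ≤ z₀ ∧ ∀ z x : ℝ, z₀ ≤ z → HighS d m r z x = ∅ := by
  classical
  obtain ⟨M, hM⟩ := hE.bddAbove
  refine ⟨max 1 M, le_max_left _ _, fun z x hz => ?_⟩
  rw [Set.eq_empty_iff_forall_notMem]
  rintro n ⟨h1, -, h3, h4⟩
  have hz1 : 1 ≤ z := (le_max_left _ _).trans hz
  have hzM : (M : ℝ) ≤ z := (le_max_right _ _).trans hz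
  have hex : ∃ v : ℕ, ∃ k : ℕ,
      (∀ i < k, r ((H d m r)^[i] n % (d : ℤ)) < (m : ℤ) * (H d m r)^[i] n) ∧
        ((H d m r)^[k] n).toNat = v := ⟨n.toNat, 0, by simp, by simp⟩
  obtain ⟨k, hk, hkv⟩ := Nat.find_spec hex
  have hmin : ∀ j : ℕ, (∀ i < j, r ((H d m r)^[i] n % (d : ℤ)) < (m : ℤ) * (H d m r)^[i] n) →
      (H d m r)^[k] n ≤ (H d m r)^[j] n := by
    intro j hj
    have h5 : Nat.find hex ≤ ((H d m r)^[j] n).toNat := Nat.find_min' hex ⟨j, hj, rfl⟩
    rw [← hkv] at h5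
    have h6 : (0 : ℝ) < ((H d m r)^[j] n : ℝ) := by
      have := h4 j hj
      linarith
    have h7 : 0 < (H d m r)^[j] n := by exact_mod_cast h6
    omega
  have hkz := h4 k hk
  have hkpos : 0 < (H d m r)^[k] n := by
    have h6 : (0 : ℝ) < ((H d m r)^[k] n : ℝ) := by linarith
    exact_mod_cast h6
  have hkd : ¬ (d : ℤ) ∣ (H d m r)^[k] n := by
    obtain ⟨i, hi1, hi2⟩ := H_in_T hr hd h3 k hk
    rwa [hi1]
  have hkE : (H d m r)^[k] n ∈ E d m r := by
    refine ⟨hkpos, hkd, fun j hj => ?_⟩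
    rw [← Function.iterate_add_apply]
    refine hmin (j + k) fun i hi => ?_
    rcases lt_or_ge i k with hik | hik
    · exact hk i hik
    · obtain ⟨i', rfl⟩ := Nat.exists_eq_add_of_le hik
      have h5 := hj i' (by omega)
      rw [← Function.iterate_add_apply, Nat.add_comm i' k] at h5
      exact h5
  have h5 : (H d m r)^[k] n ≤ M := hM hkE
  have h6 : (((H d m r)^[k] n : ℤ) : ℝ) ≤ (M : ℝ) := by exact_mod_cast h5
  linarith

/-- The orbits which stay above `z`: the multiples of `d`. -/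
theorem cN_above_split (hr : Admissible d m r) (hd : 2 ≤ d) {z : ℝ} (hz : 0 ≤ z) (x : ℝ) :
    cN (Above d m r z) x ≤ ((HighS d m r z x).ncard : ℝ) + cN (Above d m r z) (x / d) := by
  have hd0 : (0 : ℝ) < d := by exact_mod_cast (by omega : 0 < d)
  unfold cN
  have hfin1 : {n : ℤ | n ∈ Above d m r z ∧ 0 < n ∧ (n : ℝ) ≤ x / d}.Finite := by
    refine (Set.finite_Icc (1 : ℤ) ⌊x / d⌋).subset ?_
    rintro n ⟨-, h1, h2⟩
    exact ⟨h1, Int.le_floor.2 h2⟩
  have hsub : {n : ℤ | n ∈ Above d m r z ∧ 0 < n ∧ (n : ℝ) ≤ x} ⊆ HighS d m r z x ∪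
      (fun n' => (d : ℤ) * n') '' {n : ℤ | n ∈ Above d m r z ∧ 0 < n ∧ (n : ℝ) ≤ x / d} := by
    rintro n ⟨hn, hn0, hnx⟩
    by_cases hdn : (d : ℤ) ∣ n
    · right
      have h1 := d_mul_T_of_dvd (m := m) (r := r) hdn
      refine ⟨T d m r n, ⟨fun k => ?_, ?_, ?_⟩, h1⟩
      · have h2 := hn (k + 1)
        rwa [Function.iterate_succ_apply] at h2
      · have h2 := hn 1
        rw [Function.iterate_one] at h2
        have h3 : (0 : ℝ) < (T d m r n : ℝ) := lt_of_le_of_lt hz h2
        exact_mod_cast h3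
      · rw [le_div_iff₀ hd0]
        have h2 : ((d : ℤ) : ℝ) * (T d m r n : ℝ) = n := by exact_mod_cast h1
        push_cast at h2
        linarith
    · left
      refine ⟨hn0, hnx, hdn, fun k hk => ?_⟩
      obtain ⟨j, hj, -⟩ := H_in_T hr hd hdn k hk
      rw [hj]
      exact hn j
  have h1 := (Set.ncard_le_ncard hsub ((highS_fin z x).union (hfin1.image _))).trans
    (Set.ncard_union_le _ _)
  have h2 := Set.ncard_image_le (f := fun n' : ℤ => (d : ℤ) * n') hfin1
  exact_mod_cast h1.trans (Nat.add_le_add_left h2 _)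

/-- If the lower density of `HighS z` is `o(1 / z)` then `E` is finite; case `m > d`. -/
theorem finite_of_density (h : Std d m r)
    (hH : ∀ ε : ℝ, 0 < ε → ∃ z₀ : ℝ, ∀ z : ℝ, z₀ ≤ z → ∀ X : ℝ, ∃ x : ℝ, X ≤ x ∧
      ((HighS d m r z x).ncard : ℝ) ≤ ε * x / z) : (E d m r).Finite := by
  by_contra hinf
  obtain ⟨c, K, B₁, hc, hK, hB₁, hcore⟩ := core_dens h
  have hK0 : 0 < K := by linarith
  have hd0 : (0 : ℝ) < d := by
    have := h.hd
    exact_mod_cast (by omega : 0 < d)
  have hd2 : (2 : ℝ) ≤ d := by exact_mod_cast h.hd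
  obtain ⟨z₀, hz₀⟩ := hH (c / (8 * K)) (by positivity)
  obtain ⟨e, he1, he2, he3⟩ := E_large h hinf (2 * K * max B₁ z₀)
  have he0 : (0 : ℝ) < e := by exact_mod_cast (by omega : 0 < e)
  set z : ℝ := e / (2 * K) with hz
  have hzm : max B₁ z₀ ≤ z := by
    rw [hz, le_div_iff₀ (by positivity), mul_comm]
    exact he1.le
  have hzB : B₁ ≤ z := (le_max_left _ _).trans hzm
  have hz1 : 1 ≤ z := hB₁.trans hzB
  have hz0 : 0 < z := by linarith
  have hx₀ := hz₀ z ((le_max_right _ _).trans hzm)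
  set D : ℝ := PL.dens (Above d m r z) with hD
  have hlim := tendsto_dens h (tinv_Above (d := d) (m := m) (r := r) z)
  have hlim2 : Tendsto (fun x : ℝ => cN (Above d m r z) (x / d) / (x / d)) atTop (𝓝 D) :=
    hlim.comp (tendsto_id.atTop_div_const hd0)
  have hle : D - D * (1 / d) ≤ c / (8 * K) / z := by
    refine le_of_tendsto_of_frequently (hlim.sub (hlim2.mul_const (1 / (d : ℝ)))) ?_
    rw [Filter.frequently_atTop]
    intro X
    obtain ⟨x, hx, h2⟩ := hx₀ (max X 1)
    have hx0 : 0 < x := lt_of_lt_of_le one_pos ((le_max_right _ _).trans hx)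
    refine ⟨x, (le_max_left _ _).trans hx, ?_⟩
    have h1 := cN_above_split h.hr h.hd hz0.le x
    have h3 : cN (Above d m r z) (x / d) / (x / d) * (1 / d) = cN (Above d m r z) (x / d) / x := by
      field_simp
    rw [h3, ← sub_div, div_le_iff₀ hx0]
    have h4 : c / (8 * K) / z * x = c / (8 * K) * x / z := by ring
    rw [h4]
    linarith
  have h1 := hcore e z hzB (fun k => by
    have h4 : (e : ℝ) ≤ ((T d m r)^[k] e : ℝ) := by exact_mod_cast he3 k
    have h5 : K * (e / (2 * K)) = e / 2 := by field_simp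
    rw [hz, h5]
    linarith)
  have hD0 : 0 < D := lt_of_lt_of_le (by positivity) h1
  have h2 : D * (1 / d) ≤ D / 2 := by
    rw [mul_one_div]
    exact div_le_div_of_nonneg_left hD0.le (by norm_num) hd2
  have h3 : D ≤ 2 * (c / (8 * K) / z) := by linarith
  have h4 : 2 * (c / (8 * K) / z) = c / e / 2 := by
    rw [hz]
    field_simp
    norm_num
  have h5 : 0 < c / e := by positivity
  rw [h4] at h3
  linarith

end Pool.Agent.Helper33.MO
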