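import Pool.Agent.Helper28.POSB.Basins
import Pool.Agent.Helper52.Moeller.HOrbit

/-!
# The critical exponent of the orbits which stay large

Let `β B` be the natural density of the integers whose whole `T`-orbit is `> B`. There are `c > 0` and `K` such that
`β B ≥ c / y` as soon as the orbit of `y` is `> K B` (`core`). Hence
* if `E(d, m, R)` is infinite then `β B ≥ c / B` for arbitrarily large `B`,
* if some orbit diverges then `β B ≥ c / B` for all `B ≥ 1`,
* `E(d, m, R)` is finite if and only if `β B = o(1 / B)`, if and only if for some `δ > 1` at most `C x z ^ (-δ)` of the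
  `n ≤ x`, `d ∤ n`, have all their iterates `> z`.
-/

set_option autoImplicit false

namespace Pool.Agent.Helper33.MO

open Filter Topology Finset Pool.Agent.Helper68.Moeller Pool.Agent.Helper52.Moeller
  Pool.Agent.Helper52.Tao Pool.Agent.Helper8.ND Pool.Agent.Helper91 Pool.Agent.Helper8
  Pool.Agent.Helper28 Pool.Agent.Helper28.POSB

variable {d m : ℕ} {r : ℤ → ℤ}

theorem T_le (hd : 2 ≤ d) (hm : 1 ≤ m) (hr : Admissible d m r) {B : ℤ}
    (hB : ∀ j : ℤ, 0 < j → j < (d : ℤ) → |r j| ≤ B) {y M : ℤ} (hM : B ≤ M) (hM0 : 0 ≤ M) (hy : y ≤ M) :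
    T d m r y ≤ m * M := by
  have hd' : (2 : ℤ) ≤ d := by exact_mod_cast hd
  have hm' : (1 : ℤ) ≤ m := by exact_mod_cast hm
  by_cases hdvd : (d : ℤ) ∣ y
  · have h1 := d_mul_T_of_dvd (m := m) (r := r) hdvd
    have h4 : M ≤ m * M := by nlinarith
    by_contra hcon
    push Not at hcon
    nlinarith
  · have h1 := d_mul_T_of_not_dvd hr hd hdvd
    obtain ⟨e1, e2⟩ := emod_pos hd hdvd
    have h2 := hB _ e1 e2
    rw [abs_le] at h2
    by_contra hcon
    push Not at hcon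
    have h3 : (m : ℤ) * y ≤ m * M := mul_le_mul_of_nonneg_left hy (by omega)
    have h4 : M ≤ m * M := by nlinarith
    nlinarith

/-- Going down to a point not divisible by `d`. -/
theorem down (hd : 2 ≤ d) {n : ℤ} (h : ∀ k, 1 ≤ (T d m r)^[k] n) :
    ∃ t, ¬ (d : ℤ) ∣ (T d m r)^[t] n ∧ (d : ℤ) ^ t * (T d m r)^[t] n = n := by
  classical
  have hex := PRE.exists_not_dvd hd h
  refine ⟨Nat.find hex, Nat.find_spec hex, ?_⟩
  have key : ∀ j : ℕ, j ≤ Nat.find hex → (d : ℤ) ^ j * (T d m r)^[j] n = n := by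
    intro j
    induction j with
    | zero => intro _; simp
    | succ j ih =>
      intro hj
      have h1 : (d : ℤ) ∣ (T d m r)^[j] n := by
        by_contra hcon
        exact Nat.find_min hex (by omega) hcon
      rw [Function.iterate_succ_apply', pow_succ, mul_assoc, d_mul_T_of_dvd h1, ih (by omega)]
  exact key _ le_rfl

theorem near (hd : 2 ≤ d) (hm : 1 ≤ m) (hr : Admissible d m r) {B : ℤ}
    (hB : ∀ j : ℤ, 0 < j → j < (d : ℤ) → |r j| ≤ B) {n : ℤ} (h : ∀ k, 1 ≤ (T d m r)^[k] n)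
    (h' : ∀ k, B < (T d m r)^[k] n) (s : ℕ) :
    ∃ t, s ≤ sg (wd d m r t n) ∧ (T d m r)^[t] n ≤ (m : ℤ) ^ s * n := by
  have hd' : (2 : ℤ) ≤ d := by exact_mod_cast hd
  have hm' : (1 : ℤ) ≤ m := by exact_mod_cast hm
  induction s with
  | zero => exact ⟨0, by simp, by simp⟩
  | succ s ih =>
    obtain ⟨t, ht, ht2⟩ := ih
    have h1 : ∀ k, 1 ≤ (T d m r)^[k] ((T d m r)^[t] n) := by
      intro k
      rw [← Function.iterate_add_apply]
      exact h _
    obtain ⟨j, hj, hj2⟩ := down hd h1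
    rw [← Function.iterate_add_apply] at hj hj2
    have hle : (T d m r)^[j + t] n ≤ (T d m r)^[t] n := by
      have h2 : (1 : ℤ) ≤ (d : ℤ) ^ j := one_le_pow₀ (by omega)
      have h3 := h (j + t)
      nlinarith
    refine ⟨j + t + 1, ?_, ?_⟩
    · rw [← PL.card_eq_sg hd] at ht ⊢
      have hsub : insert (j + t) ((range t).filter (fun i => ¬ (d : ℤ) ∣ (T d m r)^[i] n)) ⊆
          (range (j + t + 1)).filter (fun i => ¬ (d : ℤ) ∣ (T d m r)^[i] n) := by
        intro x hx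
        rcases mem_insert.1 hx with rfl | hx
        · exact mem_filter.2 ⟨mem_range.2 (by omega), hj⟩
        · obtain ⟨h1, h2⟩ := mem_filter.1 hx
          exact mem_filter.2 ⟨mem_range.2 (by have := mem_range.1 h1; omega), h2⟩
      have hc := card_le_card hsub
      rw [card_insert_of_notMem (by simp)] at hc
      omega
    · rw [Function.iterate_succ_apply']
      have h4 := T_le (m := m) (r := r) hd hm hr hB (h' (j + t)).le (by have := h (j + t); omega)
        (le_refl ((T d m r)^[j + t] n))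
      calc T d m r ((T d m r)^[j + t] n) ≤ m * (T d m r)^[j + t] n := h4
        _ ≤ m * ((m : ℤ) ^ s * n) := mul_le_mul_of_nonneg_left (hle.trans ht2) (by omega)
        _ = (m : ℤ) ^ (s + 1) * n := by ring

/-- An integer which is not dead on the orbit, of nearly the same size. -/
theorem alive_near {p v s0 : ℕ} (hBa : PRE.Base d m p v s0 r) {B : ℤ}
    (hB : ∀ j : ℤ, 0 < j → j < (d : ℤ) → |r j| ≤ B) {n : ℤ} (h : ∀ k, 1 ≤ (T d m r)^[k] n)
    (h' : ∀ k, B < (T d m r)^[k] n) :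
    ∃ t, ¬ PL.Dead d m r ((T d m r)^[t] n) ∧ (T d m r)^[t] n ≤ (m : ℤ) ^ s0 * n := by
  have hm1 : 1 ≤ m := by
    have := hBa.hdm
    omega
  obtain ⟨t, ht, ht2⟩ := near hBa.hd hm1 hBa.hr hB h h' s0
  refine ⟨t, hBa.c2 _ ?_, ht2⟩
  obtain ⟨h1, -⟩ := PL.hit_wd hBa.hd hBa.hdm hBa.hr t n
  have h2 : PL.Hit d m r s0 ((T d m r)^[t] n) (wd d m r t n) :=
    (pow_dvd_pow _ ht).trans h1
  refine lt_of_lt_of_le ?_ (PL.nut_le_nu t s0 _)
  unfold PL.nut
  have hd0 : (0 : ℝ) < d := by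
    have := hBa.hd
    exact_mod_cast (by omega : 0 < d)
  exact div_pos ((PL.nua_cW_pos_iff t _).2 ⟨_, wd_mem hBa.hd r t n, ht, h2⟩) (by positivity)

/-- **The lower bound.** If the orbit of `y` is `> K B` then at least `c x / y` of the `n ≤ x` have an orbit `> B`. -/
theorem core (h : Std d m r) : ∃ (c K B₁ : ℝ), 0 < c ∧ 1 ≤ K ∧ 1 ≤ B₁ ∧ ∀ (y : ℤ) (B : ℝ), B₁ ≤ B →
    (∀ k, K * B < ((T d m r)^[k] y : ℝ)) → ∀ x : ℝ, K * y ≤ x →
      c * x / y ≤ cN (Above d m r B) x := by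
  obtain ⟨p, v, s0, hBa⟩ := POS.exists_Base h.hd h.hdm h.hco h.hw h.hr
  obtain ⟨c, K, hc, hK, hp⟩ := POS.density_path h.hd h.hdm h.hco h.hw h.hr
  obtain ⟨B₀, hB₀, hr⟩ := PRE.exists_resid_bound d r
  have hK1 : (1 : ℝ) ≤ K := by exact_mod_cast hK
  have hK0 : (0 : ℝ) < K := by linarith
  have hm1 : (1 : ℝ) ≤ m := by
    have := h.hdm
    exact_mod_cast (by omega : 1 ≤ m)
  have hms : (1 : ℝ) ≤ (m : ℝ) ^ s0 := one_le_pow₀ hm1
  have hms0 : (0 : ℝ) < (m : ℝ) ^ s0 := by positivity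
  refine ⟨c / (m : ℝ) ^ s0, max K ((m : ℝ) ^ s0), max B₀ 1, by positivity,
    hK1.trans (le_max_left _ _), le_max_right _ _, ?_⟩
  intro y B hB hy x hx
  have hB1 : 1 ≤ B := (le_max_right _ _).trans hB
  have hBB : (B₀ : ℝ) ≤ B := (le_max_left _ _).trans hB
  have hKB : B ≤ K * B := by nlinarith
  have hy' : ∀ k, K * B < ((T d m r)^[k] y : ℝ) := fun k =>
    lt_of_le_of_lt (mul_le_mul_of_nonneg_right (le_max_left _ _) (by linarith)) (hy k)
  have hpos : ∀ k, 1 ≤ (T d m r)^[k] y := by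
    intro k
    have h1 : (0 : ℝ) < ((T d m r)^[k] y : ℝ) := by
      have := hy' k
      linarith
    have h2 : 0 < (T d m r)^[k] y := by exact_mod_cast h1
    omega
  have hbig : ∀ k, B₀ < (T d m r)^[k] y := by
    intro k
    have h1 : (B₀ : ℝ) < ((T d m r)^[k] y : ℝ) := by
      have := hy' k
      linarith
    exact_mod_cast h1
  obtain ⟨t, ht1, ht2⟩ := alive_near hBa hr hpos hbig
  set b : ℤ := (T d m r)^[t] y with hb
  have hb1 : 1 ≤ b := hpos t
  have hb0 : (0 : ℝ) < b := by exact_mod_cast (by omega : 0 < b)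
  have hy0 : (0 : ℝ) < y := by
    have := hpos 0
    rw [Function.iterate_zero, id_eq] at this
    exact_mod_cast (by omega : 0 < y)
  have hby : (b : ℝ) ≤ (m : ℝ) ^ s0 * y := by exact_mod_cast ht2
  have hbx : (b : ℝ) ≤ x :=
    hby.trans ((mul_le_mul_of_nonneg_right (le_max_right _ _) hy0.le).trans hx)
  have hx0 : 0 < x := hb0.trans_le hbx
  have h1 := hp b x hb1 ht1 hbx
  have h2 : c / (m : ℝ) ^ s0 * x / y ≤ c * (x / b) := by
    have e1 : c / (m : ℝ) ^ s0 * x / y = c * (x / ((m : ℝ) ^ s0 * y)) := by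
      field_simp
    rw [e1]
    exact mul_le_mul_of_nonneg_left (div_le_div_of_nonneg_left hx0.le hb0 hby) hc.le
  refine h2.trans (h1.trans ?_)
  unfold cN
  have hfin : {n : ℤ | n ∈ Above d m r B ∧ 0 < n ∧ (n : ℝ) ≤ x}.Finite := by
    refine (Set.finite_Icc (1 : ℤ) ⌊x⌋).subset ?_
    rintro n ⟨-, h1, h2⟩
    exact ⟨h1, Int.le_floor.2 h2⟩
  have hsub : POS.Pth d m r (b / K) b x ⊆ {n : ℤ | n ∈ Above d m r B ∧ 0 < n ∧ (n : ℝ) ≤ x} := by
    rintro n ⟨⟨s, hs1, hs2⟩, hn⟩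
    refine ⟨fun k => ?_, hn⟩
    have hBb : B < b / K := by
      rw [lt_div_iff₀ hK0, mul_comm]
      exact hy' t
    rcases le_total k s with hk | hk
    · exact lt_of_lt_of_le hBb (hs2 k hk)
    · obtain ⟨j, rfl⟩ := Nat.exists_eq_add_of_le hk
      rw [Nat.add_comm s j, Function.iterate_add_apply, hs1, hb, ← Function.iterate_add_apply]
      exact lt_of_le_of_lt hKB (hy' _)
  exact_mod_cast Set.ncard_le_ncard hsub hfin

/-- The density of the orbits `> B`. -/
theorem core_dens (h : Std d m r) : ∃ (c K B₁ : ℝ), 0 < c ∧ 1 ≤ K ∧ 1 ≤ B₁ ∧ ∀ (y : ℤ) (B : ℝ), B₁ ≤ B →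
    (∀ k, K * B < ((T d m r)^[k] y : ℝ)) → c / y ≤ PL.dens (Above d m r B) := by
  obtain ⟨c, K, B₁, hc, hK, hB₁, h1⟩ := core h
  refine ⟨c, K, B₁, hc, hK, hB₁, fun y B hB hy => ?_⟩
  refine le_dens_of (tendsto_dens h (tinv_Above B)) (b := c / y) (X := K * y) fun x hx => ?_
  have h2 := h1 y B hB hy x hx
  calc c / y * x = c * x / y := by ring
    _ ≤ _ := h2

theorem dens_anti (h : Std d m r) {B B' : ℝ} (hB : B ≤ B') :
    PL.dens (Above d m r B') ≤ PL.dens (Above d m r B) := by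
  refine le_of_tendsto_of_tendsto (tendsto_dens h (tinv_Above B')) (tendsto_dens h (tinv_Above B)) ?_
  filter_upwards [eventually_gt_atTop 0] with x hx
  refine div_le_div_of_nonneg_right ?_ hx.le
  refine cN_mono (G := Above d m r B') (H := Above d m r B) (fun n hn _ => ?_) x
  exact fun k => lt_of_le_of_lt hB (hn k)

/-- Large elements of `E`. -/
theorem E_large (h : Std d m r) (hinf : (E d m r).Infinite) (Z : ℝ) :
    ∃ e : ℤ, Z < e ∧ 1 ≤ e ∧ ∀ k, e ≤ (T d m r)^[k] e := by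
  obtain ⟨B₀, hB₀, hr⟩ := PRE.exists_resid_bound d r
  have hm1 : 1 ≤ m := by
    have := h.hdm
    omega
  obtain ⟨e, he, he1⟩ : ∃ e ∈ E d m r, max B₀ ⌈Z⌉ < e := by
    by_contra hcon
    push Not at hcon
    refine hinf ((Set.finite_Icc (1 : ℤ) (max B₀ ⌈Z⌉)).subset fun e he => ⟨he.1, hcon e he⟩)
  have he2 : B₀ < e := lt_of_le_of_lt (le_max_left _ _) he1
  have he3 : Z < (e : ℝ) := by
    have : ⌈Z⌉ < e := lt_of_le_of_lt (le_max_right _ _) he1
    exact lt_of_le_of_lt (Int.le_ceil Z) (by exact_mod_cast this)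
  exact ⟨e, he3, he.1, E_T h.hr h.hd hm1 hr he he2⟩

/-- If `E` is infinite then `β B ≥ c / B` for arbitrarily large `B`. -/
theorem lower_often (h : Std d m r) (hinf : (E d m r).Infinite) :
    ∃ c : ℝ, 0 < c ∧ ∀ B₀ : ℝ, ∃ B : ℝ, B₀ ≤ B ∧ 1 ≤ B ∧ c / B ≤ PL.dens (Above d m r B) := by
  obtain ⟨c, K, B₁, hc, hK, hB₁, h1⟩ := core_dens h
  have hK0 : 0 < K := by linarith
  refine ⟨c / (2 * K), by positivity, fun B₀ => ?_⟩
  obtain ⟨e, he1, he2, he3⟩ := E_large h hinf (2 * K * max B₀ B₁)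
  have he0 : (0 : ℝ) < e := by exact_mod_cast (by omega : 0 < e)
  have h2 : max B₀ B₁ ≤ e / (2 * K) := by
    rw [le_div_iff₀ (by positivity), mul_comm]
    exact he1.le
  refine ⟨e / (2 * K), (le_max_left _ _).trans h2, (hB₁.trans (le_max_right _ _)).trans h2, ?_⟩
  have h3 := h1 e (e / (2 * K)) ((le_max_right _ _).trans h2) (fun k => by
    have h4 : (e : ℝ) ≤ ((T d m r)^[k] e : ℝ) := by exact_mod_cast he3 k
    have h5 : K * (e / (2 * K)) = e / 2 := by field_simp
    rw [h5]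
    linarith)
  have h4 : c / (2 * K) / (e / (2 * K)) = c / e := by field_simp
  rw [h4]
  exact h3

/-- If some orbit diverges then `β B ≥ c / B` for all `B ≥ 1`. -/
theorem lower_always (h : Std d m r) {a : ℤ}
    (ha : Tendsto (fun k : ℕ => ((T d m r)^[k] a : ℝ)) atTop atTop) :
    ∃ c : ℝ, 0 < c ∧ ∀ B : ℝ, 1 ≤ B → c / B ≤ PL.dens (Above d m r B) := by
  obtain ⟨c, K, B₁, hc, hK, hB₁, h1⟩ := core_dens h
  obtain ⟨B₀, hB₀, hr⟩ := PRE.exists_resid_bound d r
  have hK0 : 0 < K := by linarith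
  have hm1 : 1 ≤ m := by
    have := h.hdm
    omega
  have hm1' : (1 : ℝ) ≤ m := by exact_mod_cast hm1
  -- large `B`
  set B₂ : ℝ := max B₁ (max B₀ |(a : ℝ)|) with hB₂
  have hB₂1 : 1 ≤ B₂ := hB₁.trans (le_max_left _ _)
  have hlarge : ∀ B : ℝ, B₂ ≤ B → c / (m * (K * B + 1)) ≤ PL.dens (Above d m r B) := by
    intro B hB
    have hB1 : B₁ ≤ B := (le_max_left _ _).trans hB
    have hBB₀ : (B₀ : ℝ) ≤ B := ((le_max_left _ _).trans (le_max_right _ _)).trans hB
    have hBa : |(a : ℝ)| ≤ B := ((le_max_right _ _).trans (le_max_right _ _)).trans hB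
    have hB0 : 1 ≤ B := hB₂1.trans hB
    have hKB : B ≤ K * B := by nlinarith
    obtain ⟨N, hN⟩ := (tendsto_atTop.1 ha (K * B + 1)).exists_forall_of_atTop
    -- the last time in `(-∞, K B]`
    have hex : ∃ τ : ℕ, ((T d m r)^[τ] a : ℝ) ≤ K * B ∧ ∀ k : ℕ, K * B < ((T d m r)^[k + (τ + 1)] a : ℝ) := by
      by_contra hcon
      push Not at hcon
      have hall : ∀ j : ℕ, ∃ τ : ℕ, j ≤ τ ∧ ((T d m r)^[τ] a : ℝ) ≤ K * B := by
        intro j
        induction j with
        | zero =>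
          refine ⟨0, le_rfl, ?_⟩
          rw [Function.iterate_zero, id_eq]
          exact (le_abs_self _).trans (hBa.trans hKB)
        | succ j ih =>
          obtain ⟨τ, hτ1, hτ2⟩ := ih
          obtain ⟨k, hk⟩ := hcon τ hτ2
          exact ⟨k + (τ + 1), by omega, hk⟩
      obtain ⟨τ, hτ1, hτ2⟩ := hall N
      have := hN τ hτ1
      linarith
    obtain ⟨τ, hτ1, hτ2⟩ := hex
    set y : ℤ := (T d m r)^[τ + 1] a with hy
    have hy1 : ∀ k, K * B < ((T d m r)^[k] y : ℝ) := by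
      intro k
      rw [hy, ← Function.iterate_add_apply]
      exact hτ2 k
    have hy2 : (y : ℝ) ≤ m * (K * B + 1) := by
      have h2 : (T d m r)^[τ] a ≤ ⌈K * B⌉ := by
        have : (((T d m r)^[τ] a : ℤ) : ℝ) ≤ ((⌈K * B⌉ : ℤ) : ℝ) := hτ1.trans (Int.le_ceil _)
        exact_mod_cast this
      have h3 : B₀ ≤ ⌈K * B⌉ := by
        have : (B₀ : ℝ) ≤ ((⌈K * B⌉ : ℤ) : ℝ) := (hBB₀.trans hKB).trans (Int.le_ceil _)
        exact_mod_cast this
      have h4 := T_le (m := m) (r := r) h.hd hm1 h.hr hr h3 (hB₀.trans h3) h2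
      rw [← Function.iterate_succ_apply' (T d m r) τ a, ← hy] at h4
      have h5 : (y : ℝ) ≤ m * ((⌈K * B⌉ : ℤ) : ℝ) := by exact_mod_cast h4
      refine h5.trans (mul_le_mul_of_nonneg_left ?_ (by linarith))
      exact (Int.ceil_lt_add_one _).le
    have hy0 : (0 : ℝ) < y := by
      have := hy1 0
      rw [Function.iterate_zero, id_eq] at this
      nlinarith
    refine le_trans ?_ (h1 y B hB1 hy1)
    exact div_le_div_of_nonneg_left hc.le hy0 hy2
  -- all `B`
  refine ⟨c / (m * (K * B₂ + 1)) , by positivity, fun B hB => ?_⟩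
  have hB0 : 0 < B := by linarith
  rcases le_total B₂ B with hle | hle
  · refine le_trans ?_ (hlarge B hle)
    rw [div_div]
    refine div_le_div_of_nonneg_left hc.le (by positivity) ?_
    have h3 : K * B + 1 ≤ (K * B₂ + 1) * B := by
      have h5 : 0 ≤ K * B * (B₂ - 1) := mul_nonneg (by positivity) (by linarith)
      nlinarith
    calc (m : ℝ) * (K * B + 1) ≤ m * ((K * B₂ + 1) * B) :=
          mul_le_mul_of_nonneg_left h3 (by linarith)
      _ = m * (K * B₂ + 1) * B := by ring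
  · refine le_trans ?_ (dens_anti h hle)
    refine le_trans ?_ (hlarge B₂ le_rfl)
    exact div_le_self (by positivity) hB

/-- **The gap.** `E` is finite if and only if `β B = o(1 / B)`. -/
theorem finite_iff (h : Std d m r) :
    (E d m r).Finite ↔ Tendsto (fun B : ℝ => B * PL.dens (Above d m r B)) atTop (𝓝 0) := by
  constructor
  · intro hfin
    obtain ⟨B, hB⟩ := PRE.stay_empty h.hd h.hr hfin
    have h0 : ∀ B' : ℝ, B ≤ B' → PL.dens (Above d m r B') = 0 := by
      intro B' hB'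
      have e : Above d m r B' = ∅ := by
        ext n
        constructor
        · intro hn
          exact hB n ⟨0, fun k _ => lt_of_le_of_lt hB' (hn k)⟩
        · intro hn
          exact absurd hn (Set.notMem_empty n)
      rw [e]
      exact dens_empty h
    refine tendsto_const_nhds.congr' ?_
    filter_upwards [eventually_ge_atTop B] with B' hB'
    rw [h0 B' hB', mul_zero]
  · intro ht
    by_contra hinf
    obtain ⟨c, hc, h1⟩ := lower_often h hinf
    obtain ⟨B₀, hB₀⟩ := (ht.eventually (gt_mem_nhds hc)).exists_forall_of_atTop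
    obtain ⟨B, hB1, hB2, hB3⟩ := h1 B₀
    have h2 := hB₀ B hB1
    rw [div_le_iff₀ (by linarith)] at hB3
    linarith

end Pool.Agent.Helper33.MO
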