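import Pool.Agent.Helper33.MO.Gap

/-!
# The critical exponent, in terms of `H`
-/

set_option autoImplicit false

namespace Pool.Agent.Helper33.MO

open Filter Topology Finset Pool.Agent.Helper68.Moeller Pool.Agent.Helper52.Moeller
  Pool.Agent.Helper52.Tao Pool.Agent.Helper8.ND Pool.Agent.Helper91 Pool.Agent.Helper8
  Pool.Agent.Helper28 Pool.Agent.Helper28.POSB

variable {d m : ℕ} {r : ℤ → ℤ}

/-- The positive integers `n ≤ x`, not divisible by `d`, all of whose (defined) iterates under `H`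
are greater than `z`. -/
def HighS (d m : ℕ) (r : ℤ → ℤ) (z : ℝ) (x : ℝ) : Set ℤ :=
  {n : ℤ | 0 < n ∧ (n : ℝ) ≤ x ∧ ¬ (d : ℤ) ∣ n ∧
    ∀ k : ℕ, (∀ i < k, r ((H d m r)^[i] n % (d : ℤ)) < (m : ℤ) * (H d m r)^[i] n) →
      z < ((H d m r)^[k] n : ℝ)}

theorem highS_fin (z x : ℝ) : (HighS d m r z x).Finite := by
  refine (Set.finite_Icc (1 : ℤ) ⌊x⌋).subset ?_
  rintro n ⟨h1, h2, -⟩
  exact ⟨h1, Int.le_floor.2 h2⟩

/-- The points of the `H`-orbit are points of the `T`-orbit. -/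
theorem H_in_T (hr : Admissible d m r) (hd : 2 ≤ d) {y : ℤ} (hy : ¬ (d : ℤ) ∣ y) :
    ∀ k : ℕ, (∀ i < k, r ((H d m r)^[i] y % (d : ℤ)) < (m : ℤ) * (H d m r)^[i] y) →
      ∃ i : ℕ, (H d m r)^[k] y = (T d m r)^[i] y ∧ ¬ (d : ℤ) ∣ (T d m r)^[i] y := by
  intro k
  induction k with
  | zero => exact fun _ => ⟨0, rfl, hy⟩
  | succ k ih =>
    intro hk
    obtain ⟨i, hi1, hi2⟩ := ih fun i hi => hk i (by omega)
    have hdef := hk k (by omega)
    rw [hi1] at hdef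
    obtain ⟨h1, c, hc⟩ := H_spec hr hd hi2 hdef
    refine ⟨c + (i + 1), ?_, ?_⟩
    · rw [Function.iterate_succ_apply', hi1, Function.iterate_add_apply,
        Function.iterate_succ_apply' _ i, hc, PRE.st_iter_dvd hd]
    · rw [Function.iterate_add_apply, Function.iterate_succ_apply' _ i, hc, PRE.st_iter_dvd hd]
      exact h1

/-- The orbits which stay above `z`, through the sets `HighS`. -/
theorem cN_above_le (hr : Admissible d m r) (hd : 2 ≤ d) {z : ℝ} (hz : 0 ≤ z) (x : ℝ) :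
    cN (Above d m r z) x ≤
      ∑ i ∈ range (⌊x⌋₊ + 1), ((HighS d m r z (x / (d : ℝ) ^ i)).ncard : ℝ) := by
  have hd0 : (0 : ℝ) < d := by exact_mod_cast (by omega : 0 < d)
  set G : ℕ → Set ℤ := fun i => {n : ℤ | ∃ n' : ℤ, n = (d : ℤ) ^ i * n' ∧ ¬ (d : ℤ) ∣ n' ∧
    n' ∈ Above d m r z} with hG
  have h1 : cN (Above d m r z) x ≤ cN (⋃ i ∈ range (⌊x⌋₊ + 1), G i) x := by
    unfold cN
    have hfin : {n : ℤ | n ∈ (⋃ i ∈ range (⌊x⌋₊ + 1), G i) ∧ 0 < n ∧ (n : ℝ) ≤ x}.Finite := by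
      refine (Set.finite_Icc (1 : ℤ) ⌊x⌋).subset ?_
      rintro n ⟨-, h1, h2⟩
      exact ⟨h1, Int.le_floor.2 h2⟩
    refine (Nat.cast_le (α := ℝ)).2 (Set.ncard_le_ncard ?_ hfin)
    rintro n ⟨hn, hn0, hnx⟩
    refine ⟨?_, hn0, hnx⟩
    have hpos : ∀ k, 1 ≤ (T d m r)^[k] n := by
      intro k
      have h2 : (0 : ℝ) < ((T d m r)^[k] n : ℝ) := lt_of_le_of_lt hz (hn k)
      have h3 : 0 < (T d m r)^[k] n := by exact_mod_cast h2
      omega
    obtain ⟨t, ht1, ht2⟩ := down hd hpos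
    have ht3 : t < ⌊x⌋₊ + 1 := by
      rw [Nat.lt_succ_iff]
      refine Nat.le_floor ?_
      have h3 : (t : ℝ) ≤ (d : ℝ) ^ t := by
        have : t < d ^ t := Nat.lt_pow_self (by omega)
        exact_mod_cast this.le
      have h4 : (d : ℤ) ^ t ≤ n := by
        have h5 := hpos t
        have h6 : (0 : ℤ) < (d : ℤ) ^ t := by positivity
        nlinarith
      have h5 : (d : ℝ) ^ t ≤ (n : ℝ) := by exact_mod_cast h4
      linarith
    refine Set.mem_iUnion₂.2 ⟨t, mem_range.2 ht3, (T d m r)^[t] n, ht2.symm, ht1, fun k => ?_⟩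
    rw [← Function.iterate_add_apply]
    exact hn _
  refine h1.trans ((cN_biUnion_le _ G x).trans (Finset.sum_le_sum fun i _ => ?_))
  unfold cN
  have hdi : (0 : ℝ) < (d : ℝ) ^ i := by positivity
  have h2 : {n : ℤ | n ∈ G i ∧ 0 < n ∧ (n : ℝ) ≤ x} ⊆
      (fun n' => (d : ℤ) ^ i * n') '' HighS d m r z (x / (d : ℝ) ^ i) := by
    rintro n ⟨⟨n', hn1, hn2, hn3⟩, hn0, hnx⟩
    refine ⟨n', ⟨?_, ?_, hn2, ?_⟩, hn1.symm⟩
    · have h3 : (0 : ℤ) < (d : ℤ) ^ i := by exact_mod_cast (by positivity : 0 < d ^ i)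
      rw [hn1] at hn0
      exact (mul_pos_iff_of_pos_left h3).1 hn0
    · rw [le_div_iff₀ hdi]
      rw [hn1] at hnx
      push_cast at hnx
      linarith
    · intro k hk
      obtain ⟨j, hj, -⟩ := H_in_T hr hd hn2 k hk
      rw [hj]
      exact hn3 j
  exact_mod_cast (Set.ncard_le_ncard h2 ((highS_fin _ _).image _)).trans
    (Set.ncard_image_le (highS_fin _ _))

/-- A bound for `HighS` gives a bound for `Above`. -/
theorem cN_above_bound (hr : Admissible d m r) (hd : 2 ≤ d) {z δ C : ℝ} (hz : 1 ≤ z) (hC0 : 0 ≤ C)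
    (hC : ∀ x : ℝ, 1 ≤ x → ((HighS d m r z x).ncard : ℝ) ≤ C * x * z ^ (-δ)) {x : ℝ} (hx : 0 ≤ x) :
    cN (Above d m r z) x ≤ 2 * C * x * z ^ (-δ) := by
  have hd0 : (0 : ℝ) < d := by exact_mod_cast (by omega : 0 < d)
  have hd2 : (2 : ℝ) ≤ d := by exact_mod_cast hd
  have hz0 : 0 < z := by linarith
  have hzδ : 0 ≤ z ^ (-δ) := Real.rpow_nonneg hz0.le _
  have h1 : ∀ i : ℕ, ((HighS d m r z (x / (d : ℝ) ^ i)).ncard : ℝ) ≤
      C * x * z ^ (-δ) * (1 / 2) ^ i := by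
    intro i
    have hdi : (0 : ℝ) < (d : ℝ) ^ i := by positivity
    have h2 : x / (d : ℝ) ^ i ≤ x * (1 / 2) ^ i := by
      rw [one_div, inv_pow, ← div_eq_mul_inv]
      exact div_le_div_of_nonneg_left hx (by positivity) (pow_le_pow_left₀ (by norm_num) hd2 i)
    rcases lt_or_ge (x / (d : ℝ) ^ i) 1 with h3 | h3
    · have h4 : HighS d m r z (x / (d : ℝ) ^ i) = ∅ := by
        rw [Set.eq_empty_iff_forall_notMem]
        rintro n ⟨hn1, hn2, -⟩
        have : (1 : ℝ) ≤ n := by exact_mod_cast hn1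
        linarith
      rw [h4, Set.ncard_empty, Nat.cast_zero]
      positivity
    · refine (hC _ h3).trans ?_
      have h4 : C * (x / (d : ℝ) ^ i) ≤ C * (x * (1 / 2) ^ i) := mul_le_mul_of_nonneg_left h2 hC0
      calc C * (x / (d : ℝ) ^ i) * z ^ (-δ) ≤ C * (x * (1 / 2) ^ i) * z ^ (-δ) :=
            mul_le_mul_of_nonneg_right h4 hzδ
        _ = _ := by ring
  refine (cN_above_le hr hd hz0.le x).trans ((Finset.sum_le_sum fun i _ => h1 i).trans ?_)
  rw [← Finset.mul_sum]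
  have h2 : ∑ i ∈ range (⌊x⌋₊ + 1), (1 / 2 : ℝ) ^ i ≤ 2 := by
    rw [geom_sum_eq (by norm_num)]
    have : (0 : ℝ) < (1 / 2 : ℝ) ^ (⌊x⌋₊ + 1) := by positivity
    rw [div_le_iff_of_neg (by norm_num)]
    linarith
  have h3 : 0 ≤ C * x * z ^ (-δ) := by positivity
  calc C * x * z ^ (-δ) * ∑ i ∈ range (⌊x⌋₊ + 1), (1 / 2 : ℝ) ^ i ≤ C * x * z ^ (-δ) * 2 :=
        mul_le_mul_of_nonneg_left h2 h3
    _ = _ := by ring

/-- **An exponent greater than `1` is equivalent to the finiteness of `E`**, case `m > d`, first half. -/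
theorem finite_of_exponent (h : Std d m r) {δ C : ℝ} (hδ : 1 < δ)
    (hC : ∀ x z : ℝ, 1 ≤ x → 1 ≤ z → ((HighS d m r z x).ncard : ℝ) ≤ C * x * z ^ (-δ)) :
    (E d m r).Finite := by
  by_contra hinf
  obtain ⟨c, K, B₁, hc, hK, hB₁, hcore⟩ := core h
  have hK0 : 0 < K := by linarith
  -- `e ^ (δ - 1)` is bounded
  set D : ℝ := 2 * |C| * (2 * K) ^ δ / c with hD
  obtain ⟨e, he1, he2, he3⟩ := E_large h hinf (max (2 * K * B₁) (max (D + 1) 0 ^ (1 / (δ - 1))))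
  have he0 : (0 : ℝ) < e := by exact_mod_cast (by omega : 0 < e)
  have he4 : 2 * K * B₁ < e := lt_of_le_of_lt (le_max_left _ _) he1
  have he5 : max (D + 1) 0 ^ (1 / (δ - 1)) < e := lt_of_le_of_lt (le_max_right _ _) he1
  set z : ℝ := e / (2 * K) with hz
  have hzB : B₁ ≤ z := by
    rw [hz, le_div_iff₀ (by positivity), mul_comm]
    exact he4.le
  have hz1 : 1 ≤ z := hB₁.trans hzB
  have hz0 : 0 < z := by linarith
  have hC' : ∀ x : ℝ, 1 ≤ x → ((HighS d m r z x).ncard : ℝ) ≤ |C| * x * z ^ (-δ) := by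
    intro x hx
    refine (hC x z hx hz1).trans ?_
    have h1 : 0 ≤ x * z ^ (-δ) := mul_nonneg (by linarith) (Real.rpow_nonneg hz0.le _)
    calc C * x * z ^ (-δ) = C * (x * z ^ (-δ)) := by ring
      _ ≤ |C| * (x * z ^ (-δ)) := mul_le_mul_of_nonneg_right (le_abs_self C) h1
      _ = _ := by ring
  have hy : ∀ k, K * z < ((T d m r)^[k] e : ℝ) := by
    intro k
    have h4 : (e : ℝ) ≤ ((T d m r)^[k] e : ℝ) := by exact_mod_cast he3 k
    have h5 : K * (e / (2 * K)) = e / 2 := by field_simp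
    rw [hz, h5]
    linarith
  have hKe : 0 ≤ K * e := by positivity
  have h1 := hcore e z hzB hy (K * e) le_rfl
  have h2 := cN_above_bound (m := m) h.hr h.hd hz1 (abs_nonneg C) hC' hKe
  have h3 := h1.trans h2
  have h4 : c * (K * e) / e = c * K := by field_simp
  rw [h4] at h3
  have h5 : c ≤ 2 * |C| * e * z ^ (-δ) := by
    have : c * K ≤ (2 * |C| * e * z ^ (-δ)) * K := by
      calc c * K ≤ _ := h3
        _ = _ := by ring
    exact le_of_mul_le_mul_right this hK0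
  have h6 : z ^ (-δ) = (2 * K) ^ δ * (e : ℝ) ^ (-δ) := by
    rw [hz, Real.div_rpow he0.le (by positivity), Real.rpow_neg (by positivity : (0:ℝ) ≤ 2 * K), div_inv_eq_mul,
      mul_comm]
  have h7 : (e : ℝ) ^ (-δ) * (e : ℝ) * (e : ℝ) ^ (δ - 1) = 1 := by
    have h8 : (e : ℝ) ^ (-δ) * (e : ℝ) = (e : ℝ) ^ (-δ + 1) := by
      rw [Real.rpow_add_one he0.ne']
    rw [h8, ← Real.rpow_add he0]
    have : -δ + 1 + (δ - 1) = 0 := by ring
    rw [this, Real.rpow_zero]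
  have hep : 0 < (e : ℝ) ^ (δ - 1) := Real.rpow_pos_of_pos he0 _
  have h9 : c * (e : ℝ) ^ (δ - 1) ≤ 2 * |C| * (2 * K) ^ δ := by
    calc c * (e : ℝ) ^ (δ - 1) ≤ (2 * |C| * e * z ^ (-δ)) * (e : ℝ) ^ (δ - 1) :=
          mul_le_mul_of_nonneg_right h5 hep.le
      _ = 2 * |C| * (2 * K) ^ δ * ((e : ℝ) ^ (-δ) * (e : ℝ) * (e : ℝ) ^ (δ - 1)) := by
          rw [h6]; ring
      _ = _ := by rw [h7, mul_one]
  have h10 : (e : ℝ) ^ (δ - 1) ≤ D := by
    rw [hD, le_div_iff₀ hc]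
    linarith
  have h11 : D + 1 < (e : ℝ) ^ (δ - 1) := by
    have h12 : (0 : ℝ) ≤ max (D + 1) 0 := le_max_right _ _
    have h13 := Real.rpow_lt_rpow (Real.rpow_nonneg h12 _) he5 (by linarith : 0 < δ - 1)
    rw [← Real.rpow_mul h12, one_div, inv_mul_cancel₀ (by linarith), Real.rpow_one] at h13
    exact lt_of_le_of_lt (le_max_left _ _) h13
  linarith

end Pool.Agent.Helper33.MO
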